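import Pool.Agent.V5helper67.CI.Stm

open SimpleGraph

namespace Pool.Agent.V5helper67.CI

theorem gen4 {V : Type} {H : SimpleGraph V} {v : V} {p : H.Walk v v} (hp : p.IsCycle)
    (S : Finset V) (hS : ∀ u ∈ p.support, u ∈ S) : p.length ≤ S.card := by
  classical
  have h1 : p.support.tail.length = p.length := by
    rw [List.length_tail, p.length_support]
    omega
  have h2 := hp.support_nodup
  rw [← h1, ← List.toFinset_card_of_nodup h2]
  apply Finset.card_le_card
  intro u hu
  rw [List.mem_toFinset] at hu
  exact hS u (List.mem_of_mem_tail hu)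

theorem gen3 {V : Type} {H : SimpleGraph V} {v : V} {p : H.Walk v v} (hp : p.IsCycle) (u : V)
    (T : Finset V) (hT : ∀ y ∈ T, p.toSubgraph.Adj u y) : T.card ≤ 2 := by
  classical
  rcases T.eq_empty_or_nonempty with h | ⟨y, hy⟩
  · simp [h]
  · have hu : u ∈ p.support := by
      have := (hT y hy).fst_mem
      rwa [Walk.mem_verts_toSubgraph] at this
    have h2 := hp.ncard_neighborSet_toSubgraph_eq_two hu
    have hfin : (p.toSubgraph.neighborSet u).Finite := Set.finite_of_ncard_ne_zero (by omega)
    have h3 : (T : Set V) ⊆ p.toSubgraph.neighborSet u := fun y hy => hT y (by exact_mod_cast hy)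
    have h4 := Set.ncard_le_ncard h3 hfin
    rw [Set.ncard_coe_finset] at h4
    omega

theorem gen2 {V : Type} {H : SimpleGraph V} {v : V} {p : H.Walk v v} (hp : p.IsCycle) (u a b : V)
    (hu : u ∈ p.support) (hab : ∀ y, H.Adj u y → y = a ∨ y = b) :
    a ≠ b ∧ p.toSubgraph.Adj u a ∧ p.toSubgraph.Adj u b := by
  have h2 := hp.ncard_neighborSet_toSubgraph_eq_two hu
  have h3 : p.toSubgraph.neighborSet u ⊆ {a, b} := by
    intro y hy
    have : H.Adj u y := p.toSubgraph.adj_sub hy
    simpa using hab y this
  have hne : a ≠ b := by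
    rintro rfl
    have h4 := Set.ncard_le_ncard h3 (by simp)
    rw [h2, Set.pair_eq_singleton, Set.ncard_singleton] at h4
    omega
  have h4 : p.toSubgraph.neighborSet u = {a, b} := by
    apply Set.eq_of_subset_of_ncard_le h3 _ (by simp)
    rw [h2, Set.ncard_pair hne]
  refine ⟨hne, ?_, ?_⟩
  · have : a ∈ p.toSubgraph.neighborSet u := by rw [h4]; simp
    exact this
  · have : b ∈ p.toSubgraph.neighborSet u := by rw [h4]; simp
    exact this

theorem const_walk {V : Type} {H : SimpleGraph V} {r : V} {f : V → ℕ}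
    (hf : ∀ a b, H.Adj a b → a ≠ r → b ≠ r → f a = f b) {u w : V} (q : H.Walk u w)
    (hr : r ∉ q.support) : ∀ x ∈ q.support, f x = f u := by
  induction q with
  | nil =>
    intro x hx
    rw [Walk.support_nil, List.mem_singleton] at hx
    rw [hx]
  | @cons u u' w h q ih =>
    intro x hx
    rw [Walk.support_cons, List.mem_cons] at hx hr
    rw [not_or] at hr
    rcases hx with hx | hx
    · rw [hx]
    · rw [ih hr.2 x hx]
      refine (hf u u' h (Ne.symm hr.1) ?_).symm
      rintro rfl
      exact hr.2 q.start_mem_support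

theorem const_path {V : Type} {H : SimpleGraph V} {r : V} {f : V → ℕ}
    (hf : ∀ a b, H.Adj a b → a ≠ r → b ≠ r → f a = f b) {u w : V} (q : H.Walk u w)
    (hq : q.IsPath) (hw : w = r) : ∀ x ∈ q.support, x ≠ r → f x = f u := by
  induction q with
  | nil =>
    intro x hx hxr
    rw [Walk.support_nil, List.mem_singleton] at hx
    exact absurd (hx.trans hw) hxr
  | @cons u u' w h q ih =>
    intro x hx hxr
    rw [Walk.cons_isPath_iff] at hq
    rw [Walk.support_cons, List.mem_cons] at hx
    rcases hx with hx | hx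
    · rw [hx]
    · rw [ih hq.1 hw x hx hxr]
      have hur : u ≠ r := by
        rintro rfl
        exact hq.2 (hw ▸ q.end_mem_support)
      refine (hf u u' h hur ?_).symm
      intro hu'
      subst hw
      subst hu'
      have hnil : q = Walk.nil := (Walk.isPath_iff_nil.1 hq.1).eq_nil
      rw [hnil, Walk.support_nil, List.mem_singleton] at hx
      exact hxr hx

theorem gen1 {V : Type} {H : SimpleGraph V} {v : V} {p : H.Walk v v} (hp : p.IsCycle) (r : V)
    (f : V → ℕ) (hf : ∀ a b, H.Adj a b → a ≠ r → b ≠ r → f a = f b) :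
    ∃ u0 ∈ p.support, u0 ≠ r ∧ ∀ u ∈ p.support, u ≠ r → f u = f u0 := by
  classical
  by_cases hr : r ∈ p.support
  · have hc := hp.rotate hr
    have hs : ∀ x, x ∈ (p.rotate r hr).support ↔ x ∈ p.support := by
      intro x
      rw [← Walk.mem_verts_toSubgraph, ← Walk.mem_verts_toSubgraph, Walk.toSubgraph_rotate]
    obtain ⟨p', hp'⟩ : ∃ p' : H.Walk r r, p' = p.rotate r hr := ⟨_, rfl⟩
    rw [← hp'] at hc hs
    cases p' with
    | nil => exact absurd rfl hc.ne_nil
    | @cons _ u' _ h q =>
      rw [Walk.cons_isCycle_iff] at hc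
      refine ⟨u', (hs u').1 ?_, h.ne.symm, ?_⟩
      · rw [Walk.support_cons, List.mem_cons]
        exact Or.inr q.start_mem_support
      · intro u hu hur
        have hu := (hs u).2 hu
        rw [Walk.support_cons, List.mem_cons] at hu
        rcases hu with hu | hu
        · exact absurd hu hur
        · exact const_path hf q hc.1 rfl u hu hur
  · refine ⟨v, p.start_mem_support, ?_, fun u hu _ => const_walk hf p hr u hu⟩
    rintro rfl
    exact hr p.start_mem_support

theorem t_GEN : S_GEN := fun V H v p hp =>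
  ⟨fun r f hf => gen1 hp r f hf, fun u a b hu hab => gen2 hp u a b hu hab,
    fun u T hT => gen3 hp u T hT, fun S hS => gen4 hp S hS⟩

end Pool.Agent.V5helper67.CI
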