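import Pool.Agent.V5helper67.EC.Graph

/-!
# Project CI: lower bound for the (1+1) EA on MST in terms of the circumference (MP_8f38de_lc)
-/

open Finset

namespace Pool.Agent.V5helper67.CI

open Pool.Agent.Helper120.EaModel Pool.Agent.V5helper67.EC Pool.Agent.V5helper67.EC.Pm

/-- JOB GEN (generic graph theory, Mathlib only). A cycle `p`.
(1) `f` is constant along edges which avoid `r`: then it is constant on the support without `r`. If
`r` is not in the support: induction along the walk. Otherwise rotate the cycle to `r`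
(`Walk.rotate`, supports have the same members), write it as `cons h q` with `q : Walk u r` a path
(`cons_isCycle_iff`), and show by induction for paths `q` ending in `r` that `f` is constant on
`q.support` without `r`. There is a vertex different from `r` since the length is at least three.
(2), (3) `SimpleGraph.Walk.IsCycle.ncard_neighborSet_toSubgraph_eq_two` (file
Mathlib/Combinatorics/SimpleGraph/Connectivity/Subgraph.lean): the neighbour set in the cycle has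
exactly two elements, and it is contained in `{a, b}`.
(4) the length is the length of `p.support.tail`, which has no duplicates. -/
def S_GEN : Prop := ∀ (V : Type) (H : SimpleGraph V) (v : V) (p : H.Walk v v), p.IsCycle →
  (∀ (r : V) (f : V → ℕ), (∀ a b, H.Adj a b → a ≠ r → b ≠ r → f a = f b) →
    ∃ u0 ∈ p.support, u0 ≠ r ∧ ∀ u ∈ p.support, u ≠ r → f u = f u0) ∧
  (∀ u a b : V, u ∈ p.support → (∀ y, H.Adj u y → y = a ∨ y = b) →
    a ≠ b ∧ p.toSubgraph.Adj u a ∧ p.toSubgraph.Adj u b) ∧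
  (∀ (u : V) (T : Finset V), (∀ y ∈ T, p.toSubgraph.Adj u y) → T.card ≤ 2) ∧
  (∀ S : Finset V, (∀ u ∈ p.support, u ∈ S) → p.length ≤ S.card)

/-- JOB CYC (takes S_GEN as hypothesis; `theorem t_CYC (h : S_GEN) : S_CYC`).
`H = (GG Q).subgraph univ`; `H.Adj a b` means `a ≠ b` and `s(a, b) = s(hiV e, loV e)` for an edge
`e`. Neighbours `y`: (a) of `mv j i k`: `y = tip j i` (edge `Sum.inl d`, `hiV = some d`,
`loV = par d`) or `y = tip j (pr i)` (edge `Sum.inr`); (b) of an inner spoke vertex `sv j l t`,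
`t + 1 < sl l`: `y = par (Sum.inl (j, ⟨l, t⟩))` (that is `none` for `t = 0` and `sv j l (t-1)`
otherwise) or `y = sv j l (t+1)`; (c) of a leaf `some (Sum.inr (Sum.inr q))`: `y = none`. So by
S_GEN (2) no leaf is on the cycle (`a = b = none`). Let `f` be `j + 1` for the vertices of the block
`j` and `0` for the others: S_GEN (1) with `r = none` gives one block `j` for all vertices of the
cycle different from `none`. Let `Sp` be the set of the `l` with
`p.toSubgraph.Adj none (sv j l 0)`: at most two by S_GEN (3). If an inner vertex `sv j l t` is on the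
cycle, then by S_GEN (2) and induction on `t` we get `l ∈ Sp`. If `mv j i k` is on the cycle, then it
is adjacent to `tip j i` in the cycle, so there are at most two of them for every `i` (S_GEN (3) for
`u = tip j i`). So the support is in `{none} ∪ {tip j l} ∪ ⋃_{l ∈ Sp} {sv j l t} ∪ {mv j i k on the
cycle}`, with at most `1 + g + 2 (N + n) + 2 g` elements (`sl_le`); use S_GEN (4). -/
def S_CYC : Prop := ∀ (Q : Pm) (v : Q.Vx) (p : ((GG Q).subgraph Finset.univ).Walk v v),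
  p.IsCycle → p.length ≤ 2 * (Q.N + Q.n) + 3 * Q.g + 1

/-- JOB PAR (real arithmetic, Mathlib only). `lg = log m`, `m` large. `ℓ = ⌈5 lg + 2⌉ ≤ 6 lg`,
`L = ⌊(c²/(m lg⁵))^(1/3) / 11000⌋` (at least one since `c²/(m lg⁵) ≥ lg`, so at least half of the
number without floor), `B = ⌊m/(6 L)⌋ ≥ m/(12 L)`, `M = B`, `N = ⌊c/4⌋ ≥ c/8`,
`n = ⌈32 ℓ² m²/(N M)⌉ ≤ 110592 lg² m L/c + 1 ≤ 120000 lg² m L/c`.
`ℓ n² ≤ 6 lg (120000 lg² m L/c)² ≤ m/(12 L) ≤ B` since `L³ ≤ c²/(1.3 10^12 m lg⁵)`.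
`2 N ≤ c/2` and `2 n + 3 ℓ n + 1 ≤ 20 lg n ≤ 2.4 10^6 lg³ m L/c ≤ c/2` since with `y = c²/m ≥ lg⁶`
`L ≤ y^(1/3) lg^(-5/3)/11000 ≤ y/(4.8 10^6 lg³)`. `N ≤ B`: `L ≤ m/(3 c)` since
`c^(5/3) ≤ m^(4/3)`. `n ≥ 10`: `n ≥ 32 25 lg² m²/((c/4) (m/6))`. Last inequality:
`L m²/(42 ℓ) ≥ (c²/(m lg⁵))^(1/3)/22000 m²/(252 lg)`. -/
def S_PAR : Prop := ∃ m0 : ℕ, ∀ m : ℕ, m0 ≤ m → ∀ c : ℝ,
  Real.sqrt m * Real.log m ^ 3 ≤ c → c ≤ (m : ℝ) ^ (4 / 5 : ℝ) →
  ∃ L ℓ n N M B : ℕ, 10 ≤ n ∧ 22 ≤ ℓ ∧ 0 < L ∧ ℓ * n ^ 2 ≤ B ∧ 1 ≤ N ∧ N ≤ B ∧ 1 ≤ M ∧ M ≤ B ∧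
    L * (6 * B) ≤ m ∧ 5 * Real.log m + 2 ≤ ℓ ∧ 32 * (ℓ : ℝ) ^ 2 * (m : ℝ) ^ 2 ≤ n * N * M ∧
    ((2 * (N + n) + 3 * (ℓ * n) + 1 : ℕ) : ℝ) ≤ c ∧
    1 / 10 ^ 7 * ((m : ℝ) ^ 2 * (c ^ 2 / m) ^ (1 / 3 : ℝ) / Real.log m ^ 3) ≤
      L * (m : ℝ) ^ 2 / (42 * ℓ)

end Pool.Agent.V5helper67.CI
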