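import Mathlib

/-!
# Project CI, part 2: lower bound in terms of the cyclomatic number (MP_8f38de_lc)
-/

namespace Pool.Agent.V5helper67.CI

/-- JOB PAR2 (real arithmetic, Mathlib only). `lg = log m`, `m` large. `ℓ = ⌈5 lg + 2⌉ ≤ 6 lg`,
`L = ⌊(k³/m²)^(1/5) / (140 lg)⌋` (at least one since `k³/m² ≥ lg⁶`, so at least half of the number
without floor), `N = B = ⌊m/(6 L)⌋ ≥ m/(12 L)`, `M = ⌊k/(2 L)⌋ ≥ k/(4 L)`,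
`n = ⌈32 ℓ² m²/(N M)⌉ ≤ 55296 lg² m L²/k + 1 ≤ 60000 lg² m L²/k`.
`ℓ n² ≤ 6 lg (60000 lg² m L²/k)² = 2.16 10^10 lg⁵ m² L⁴/k² ≤ k/(2 L) - 1`, more precisely at most
`k/(2.2 L)`, since `L⁵ ≤ k³/(m² (140 lg)⁵)` and `140⁵ = 5.378 10^10`; so (natural numbers)
`L (M + ℓ n²) ≤ k` follows from `L M ≤ k/2` and `L ℓ n² ≤ k/2`. `M ≤ B`: `k/(2 L) ≤ m/(12 L)` as
`k ≤ m/6` (and `B ≥ m/(12 L)`). `ℓ n² ≤ k/(2 L) ≤ m/(12 L) ≤ B`. `n ≥ 10`: `n ≥ 32 25 lg² m²/(N M)`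
and `N M ≤ (m/6) (k/2) ≤ m²/72`. Last inequality: `L m²/(42 ℓ) ≥ (k³/m²)^(1/5)/(280 lg) m²/(252 lg)`. -/
def S_PAR2 : Prop := ∃ m0 : ℕ, ∀ m : ℕ, m0 ≤ m → ∀ k : ℕ,
  (m : ℝ) ^ (2 / 3 : ℝ) * Real.log m ^ 2 ≤ k → 6 * k ≤ m →
  ∃ L ℓ n N M B : ℕ, 10 ≤ n ∧ 22 ≤ ℓ ∧ 0 < L ∧ ℓ * n ^ 2 ≤ B ∧ 1 ≤ N ∧ N ≤ B ∧ 1 ≤ M ∧ M ≤ B ∧
    L * (6 * B) ≤ m ∧ 5 * Real.log m + 2 ≤ ℓ ∧ 32 * (ℓ : ℝ) ^ 2 * (m : ℝ) ^ 2 ≤ n * N * M ∧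
    L * (M + ℓ * n ^ 2) ≤ k ∧
    1 / 10 ^ 5 * ((m : ℝ) ^ 2 * ((k : ℝ) ^ 3 / (m : ℝ) ^ 2) ^ (1 / 5 : ℝ) / Real.log m ^ 2) ≤
      L * (m : ℝ) ^ 2 / (42 * ℓ)

end Pool.Agent.V5helper67.CI
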