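import Pool.Agent.V5helper67.EB.Cycle
import Pool.Agent.V5helper67.EB.Exist

/-!
# Worsening swaps and the cyclomatic number
-/

open Finset
open scoped ENNReal

namespace Pool.Agent.V5helper67.CI

open Pool.Agent.Helper120.EaModel Pool.Agent.V5helper67.EA Pool.Agent.V5helper67.EB

variable {V E : Type} [Finite V] [Fintype E] [DecidableEq E] {G : WGraph V E}

theorem compl_le {k : ℕ} (hk : Fintype.card E + 1 ≤ Nat.card V + k) {x : Finset E}
    (hx : G.IsSpanningTree x) : (xᶜ).card ≤ k := by
  have h := ((tree_iff G).1 hx).2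
  rw [card_compl]
  omega

theorem BP_le_mul {k : ℕ} (hk : Fintype.card E + 1 ≤ Nat.card V + k) {x : Finset E}
    (hx : G.IsSpanningTree x) : (BP G x).card ≤ Fintype.card E * k := by
  have h1 : BP G x ⊆ (Finset.univ : Finset E) ×ˢ xᶜ := by
    intro q hq
    rw [mem_product, mem_compl]
    exact ⟨mem_univ _, (mem_BP.1 hq).2.1⟩
  refine (card_le_card h1).trans ?_
  rw [card_product, card_univ]
  exact Nat.mul_le_mul_left _ (compl_le hk hx)

open Classical in
theorem BP_le_cyc {k c : ℕ} (hk : Fintype.card E + 1 ≤ Nat.card V + k)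
    (hc : ∀ (v : V) (p : (G.subgraph Finset.univ).Walk v v), p.IsCycle → p.length ≤ c)
    {x : Finset E} (hx : G.IsSpanningTree x) : (BP G x).card ≤ k * c := by
  have h1 : (BP G x).card ≤ c * ((BP G x).image fun q => q.2).card := by
    apply card_le_mul_card_image
    intro b hb
    rw [mem_image] at hb
    obtain ⟨q, hq, rfl⟩ := hb
    have hb := (mem_BP.1 hq).2.1
    refine le_trans ?_ (swaps_le hc hx hb)
    refine card_le_card_of_injOn (fun q => q.1) ?_ ?_
    · intro z hz
      rw [mem_coe, mem_filter, mem_BP] at hz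
      rw [mem_coe, mem_filter]
      refine ⟨hz.1.1, ?_⟩
      have := hz.1.2.2.2
      rw [hz.2] at this
      exact this
    · intro z hz z' hz' h
      rw [mem_coe, mem_filter] at hz hz'
      exact Prod.ext h (hz.2.trans hz'.2.symm)
  refine h1.trans ?_
  rw [mul_comm]
  refine Nat.mul_le_mul_right _ (le_trans (card_le_card ?_) (compl_le hk hx))
  intro b hb
  rw [mem_image] at hb
  obtain ⟨q, hq, rfl⟩ := hb
  rw [mem_compl]
  exact (mem_BP.1 hq).2.1

theorem upper_k (hcard : 2 ≤ Fintype.card E) {k : ℕ}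
    (hk : Fintype.card E + 1 ≤ Nat.card V + k) {x0 : Finset E} (hx0 : G.IsSpanningTree x0) :
    G.expectedRuntime x0 ≤ ENNReal.ofReal (250 * (Fintype.card E : ℝ) ^ 2 *
      (Real.log (Fintype.card E) + k)) := by
  have h := upper_B G hcard (P := Fintype.card E * k) (fun x hx => BP_le_mul hk hx) hx0
  refine h.trans (ENNReal.ofReal_le_ofReal ?_)
  have h1 : ((Ts G.weight).card : ℝ) ≤ Fintype.card E := by
    have : (Ts G.weight).card ≤ Fintype.card E := Finset.card_image_le
    exact_mod_cast this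
  have h2 : ((Ts G.weight).card : ℝ) * ((Fintype.card E * k : ℕ) : ℝ) ≤
      Fintype.card E * ((Fintype.card E * k : ℕ) : ℝ) :=
    mul_le_mul_of_nonneg_right h1 (Nat.cast_nonneg _)
  push_cast at h2 ⊢
  nlinarith

theorem upper_kc (hcard : 2 ≤ Fintype.card E) {k c : ℕ}
    (hk : Fintype.card E + 1 ≤ Nat.card V + k)
    (hc : ∀ (v : V) (p : (G.subgraph Finset.univ).Walk v v), p.IsCycle → p.length ≤ c)
    {x0 : Finset E} (hx0 : G.IsSpanningTree x0) :
    G.expectedRuntime x0 ≤ ENNReal.ofReal (250 * ((Fintype.card E : ℝ) ^ 2 *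
      Real.log (Fintype.card E) + Fintype.card E * k * c)) := by
  have h := upper_B G hcard (P := k * c) (fun x hx => BP_le_cyc hk hc hx) hx0
  refine h.trans (ENNReal.ofReal_le_ofReal ?_)
  have h1 : ((Ts G.weight).card : ℝ) ≤ Fintype.card E := by
    have : (Ts G.weight).card ≤ Fintype.card E := Finset.card_image_le
    exact_mod_cast this
  have h2 : ((Ts G.weight).card : ℝ) * ((k * c : ℕ) : ℝ) ≤
      Fintype.card E * ((k * c : ℕ) : ℝ) :=
    mul_le_mul_of_nonneg_right h1 (Nat.cast_nonneg _)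
  push_cast at h2 ⊢
  nlinarith

end Pool.Agent.V5helper67.CI
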